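import Pool.Agent.W102.GI.Defs

set_option autoImplicit false

namespace Pool.Agent.W670.GI

open Pool.Agent.W102.GI Finset

theorem coeff_term (a : ℚ) (n j k : ℕ) :
    (Polynomial.C a * Polynomial.X ^ j * (1 + Polynomial.X) ^ (n - 2 * j) : Polynomial ℚ).coeff k
      = if j ≤ k then a * (Nat.choose (n - 2 * j) (k - j) : ℚ) else 0 := by
  rw [mul_assoc, Polynomial.coeff_C_mul, Polynomial.coeff_X_pow_mul']
  split_ifs with h
  · rw [Polynomial.coeff_one_add_X_pow]
  · simp

theorem integral (hpol : POL) (n : ℕ) : ∀ k, k < n / 2 + 1 → ∃ z : ℤ, gam n k = z := by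
  intro k
  induction k using Nat.strong_induction_on with
  | _ k ih =>
    intro hk
    have hc := congrArg (fun P => Polynomial.coeff P k) (hpol n)
    simp only [Polynomial.finsetSum_coeff, coeff_term] at hc
    have hL : ∑ w ∈ invs n, ((Polynomial.X : Polynomial ℚ) ^ des w).coeff k
        = ((((invs n).filter (fun w => k = des w)).card : ℤ) : ℚ) := by
      simp only [Polynomial.coeff_X_pow]
      rw [Finset.sum_ite]
      simp
    rw [hL] at hc
    have hkm : k ∈ Finset.range (n / 2 + 1) := Finset.mem_range.mpr hk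
    rw [← Finset.add_sum_erase _ _ hkm] at hc
    simp only [le_refl, if_true, Nat.sub_self, Nat.choose_zero_right, Nat.cast_one, mul_one] at hc
    have hrest : ∃ z : ℤ, ∑ x ∈ (Finset.range (n / 2 + 1)).erase k,
        (if x ≤ k then gam n x * (Nat.choose (n - 2 * x) (k - x) : ℚ) else 0) = z := by
      have : ∀ s : Finset ℕ, (∀ x ∈ s, x ≠ k ∧ x < n / 2 + 1) → ∃ z : ℤ, ∑ x ∈ s,
          (if x ≤ k then gam n x * (Nat.choose (n - 2 * x) (k - x) : ℚ) else 0) = z := by
        intro s
        induction s using Finset.induction_on with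
        | empty => intro _; exact ⟨0, by simp⟩
        | insert a s ha ihs =>
          intro hs
          obtain ⟨z, hz⟩ := ihs (fun x hx => hs x (Finset.mem_insert_of_mem hx))
          have ha' := hs a (Finset.mem_insert_self a s)
          rw [Finset.sum_insert ha, hz]
          by_cases hak : a ≤ k
          · obtain ⟨y, hy⟩ := ih a (lt_of_le_of_ne hak ha'.1) ha'.2
            refine ⟨y * (Nat.choose (n - 2 * a) (k - a) : ℤ) + z, ?_⟩
            rw [if_pos hak, hy]; push_cast; ring
          · exact ⟨z, by rw [if_neg hak]; ring⟩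
      apply this
      intro x hx
      rw [Finset.mem_erase, Finset.mem_range] at hx
      exact hx
    obtain ⟨z, hz⟩ := hrest
    rw [hz] at hc
    refine ⟨(((invs n).filter (fun w => k = des w)).card : ℤ) - z, ?_⟩
    rw [Int.cast_sub, hc]; ring

theorem INT_of (hpol : POL) (hpos : GPOS) : INT := by
  intro n
  have hnat : ∀ k, k < n / 2 + 1 → ∃ m : ℕ, gam n k = m := by
    intro k hk
    obtain ⟨z, hz⟩ := integral hpol n k hk
    have h0 := hpos n k
    rw [hz] at h0
    have h1 : (0 : ℤ) ≤ z := by exact_mod_cast h0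
    refine ⟨z.toNat, ?_⟩
    rw [hz]
    have := Int.toNat_of_nonneg h1
    exact_mod_cast this.symm
  refine ⟨fun k => ⌊gam n k⌋₊, ?_⟩
  apply Polynomial.map_injective (Int.castRingHom ℚ) Int.cast_injective
  have h1 : Polynomial.map (Int.castRingHom ℚ)
      (∑ w ∈ invs n, (Polynomial.X : Polynomial ℤ) ^ des w)
      = ∑ w ∈ invs n, (Polynomial.X : Polynomial ℚ) ^ des w := by
    rw [Polynomial.map_sum]
    apply Finset.sum_congr rfl
    intro w _
    rw [Polynomial.map_pow, Polynomial.map_X]
  rw [h1, hpol n, Polynomial.map_sum]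
  apply Finset.sum_congr rfl
  intro k hk
  obtain ⟨m, hm⟩ := hnat k (Finset.mem_range.mp hk)
  simp only [hm, Nat.floor_natCast, Polynomial.map_mul, Polynomial.map_pow, Polynomial.map_add,
    Polynomial.map_one, Polynomial.map_X, Polynomial.map_C]
  simp

end Pool.Agent.W670.GI
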